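import Pool.Agent.Q98.HG6

/-!
# A strong Gurarii space which is not homogeneous for finite-dimensional spaces (MP_9991fb_an)

The space `X` consists of bounded functions on a parameter space `T = T₀ × [0,1]^Code`, where `T₀` is
the unit ball of `ℓ_1(ℝ)`. Its elements are denoted by codes: atoms `e_γ`, `γ ∈ ℝ` (the coordinate
functions on `T₀`, which span a copy `Z` of `c_0(ℝ)`), linear combinations, limits, and one-point
extensions of finite-dimensional subspaces; the values of a new vector are chosen freely, by the
parameter of its code, in the interval given by the Hahn-Banach theorem. This gives a strong Gurarii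
space in which every functional of norm at most one is an evaluation. Since there are only continuum
many codes and the denoted functions are continuous in the parameters at the points which give
functionals of norm less than one, countably many evaluations, all vanishing on `Z`, separate the
points of `X` modulo `Z`. If a linear isometry `U : X → X` maps the atom `e_0` to the free vector `y`
(the extension of the zero space), then all but countably many `U e_γ` are in `Z`, and
`‖U e_γ + y‖ = ‖e_γ + e_0‖ = 1`; but `‖w + y‖ = ‖w‖ + ‖y‖` for `w ∈ Z`.
-/

set_option autoImplicit false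

namespace Pool.Agent.Results.MP_9991fb_an.StrongGurariiNotHomogeneous

/-- `X` is a strong Gurarii space: complete, and for every finite-dimensional space `E`, every
subspace `S` of `E` and every isometric embedding `f` of `S` into `X` there is an isometric embedding
of `E` into `X` which extends `f`. -/
def IsStrongGurarii (X : Type) [NormedAddCommGroup X] [NormedSpace ℝ X] : Prop :=
  CompleteSpace X ∧
  ∀ (E : Type) [NormedAddCommGroup E] [NormedSpace ℝ E] [FiniteDimensional ℝ E]
    (S : Submodule ℝ E) (f : S →ₗᵢ[ℝ] X), ∃ g : E →ₗᵢ[ℝ] X, ∀ s : S, g s = f s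

/-- `X` is homogeneous for finite-dimensional spaces: every bijective isometry between
finite-dimensional subspaces of `X` extends to a surjective isometry of `X`. -/
def IsHomogeneousFD (X : Type) [NormedAddCommGroup X] [NormedSpace ℝ X] : Prop :=
  ∀ (E F : Submodule ℝ X) [FiniteDimensional ℝ E] [FiniteDimensional ℝ F] (h : E ≃ₗᵢ[ℝ] F),
    ∃ U : X ≃ₗᵢ[ℝ] X, ∀ e : E, U e = h e

/-- **There is a strong Gurarii space which is not homogeneous for finite-dimensional spaces.** It
even has two vectors `x`, `y` of norm one such that no linear isometry of `X` into itself (surjective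
or not) maps `x` to `y`. -/
theorem result : ∃ (X : Type) (_ : NormedAddCommGroup X) (_ : NormedSpace ℝ X),
    IsStrongGurarii X ∧ ¬ IsHomogeneousFD X ∧
    ∃ x y : X, ‖x‖ = 1 ∧ ‖y‖ = 1 ∧ ∀ U : X →ₗᵢ[ℝ] X, U x ≠ y := by
  refine ⟨Q98.HG.Xs, inferInstance, inferInstance, ⟨inferInstance, ?_⟩, ?_,
    Q98.HG.at' 0, Q98.HG.yy, Q98.HG.norm_atom 0, Q98.HG.norm_cy, ?_⟩
  · intro E _ _ _ S f
    exact Q98.HG.universal_disposition S f
  · intro hh
    obtain ⟨E, F, h, h1, h2, h3⟩ := Q98.HG.not_homogeneous
    obtain ⟨U, hU⟩ := hh E F h
    exact h3 U.toLinearIsometry hU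
  · intro U hU
    exact Q98.HG.no_isometry U 0 hU

end Pool.Agent.Results.MP_9991fb_an.StrongGurariiNotHomogeneous
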